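import Pool.Agent.helper41.CL.Spec

/-!
# Row AO of project CL: covers with one vertex more than the number of the edges
-/

set_option autoImplicit false

namespace Pool.Agent.helper41.CL

open Finset

theorem AO (h1 : DP_stmt) (h2 : ST_stmt) (h3 : AZ_stmt) : AO_stmt := by
  intro α _ V E e
  induction e generalizing V E with
  | zero =>
    intro hG hE hV
    have hE0 : E = ∅ := card_eq_zero.mp (Nat.le_zero.mp hE)
    subst hE0
    have h : cov V ∅ (0 + 1) = V.powersetCard 1 := by
      unfold cov
      refine filter_true_of_mem ?_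
      intro C _ f hf
      exact absurd hf (notMem_empty f)
    rw [h, card_powersetCard, Nat.choose_one_right]
    omega
  | succ e ih =>
    intro hG hE hV
    obtain ⟨E', a, b, y, z, hab, hyz, ha, hb, hy, hz, hEE', hE'yz, hcard, hG'⟩ :=
      h2 α V E (e + 1) hG (Nat.succ_le_succ (Nat.zero_le e)) hE hV
    have hE'e : #E' ≤ e := by simpa using hcard
    have hV' : #(V \ {y, z}) = #V - 2 := by
      have hsub : ({y, z} : Finset α) ⊆ V := by
        intro x hx
        rcases mem_insert.mp hx with rfl | hx
        · exact hy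
        · rw [mem_singleton.mp hx]
          exact hz
      rw [card_sdiff_of_subset hsub, card_pair hyz]
    have hVe : 2 * e ≤ #(V \ {y, z}) := by omega
    have hI := ih (V \ {y, z}) E' hG' hE'e hVe
    have hA := h3 α (V \ {y, z}) E' e hG' hE'e hVe
    have hD := (h1 α V E E' a b y z hab hyz ha hb hy hz hEE' hE'yz).2 e
    set N' := #(cov (V \ {y, z}) E' (e + 1)) with hN'
    set N'' := #(cov (V \ {y, z}) E' e) with hN''
    rw [hV'] at hI
    have e1 : 2 * (#V - 2) - 3 * e + 1 = 2 * #V - 3 * (e + 1) := by omega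
    have e2 : 2 ^ (e + 1) * (2 * #V - 3 * (e + 1)) = 2 * (2 ^ e * (2 * (#V - 2) - 3 * e)) + 2 * 2 ^ e := by
      rw [← e1, pow_succ]
      ring
    have e3 : #(cov V E (e + 1 + 1)) = #(cov V E (e + 2)) := rfl
    rw [e2, e3]
    omega

end Pool.Agent.helper41.CL
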