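import Pool.Agent.helper41.CL.SpecB

/-!
# Row WE of project CL: complements of covers are cliques
-/

set_option autoImplicit false

namespace Pool.Agent.helper41.CL

open Finset

theorem WE : WE_stmt := by
  intro n k G _ hk h v
  obtain ⟨C, hC, hv⟩ := h v
  rw [cov, @mem_filter _ _ (_) _ _, mem_powersetCard] at hC
  obtain ⟨⟨_, hcard⟩, hC2⟩ := hC
  refine ⟨Cᶜ, ⟨?_, ?_⟩, by simpa using hv⟩
  · intro x hx y hy hxy
    have hx' : x ∉ C := by simpa using hx
    have hy' : y ∉ C := by simpa using hy
    by_contra hadj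
    have hmem : ({x, y} : Finset (Fin n)) ∈ NE G := by
      rw [NE, @mem_filter _ _ (_) _ _, mem_powersetCard]
      refine ⟨⟨subset_univ _, card_pair hxy⟩, ?_⟩
      intro hcl
      exact hadj (hcl (by simp) (by simp) hxy)
    obtain ⟨z, hz, hzC⟩ := hC2 _ hmem
    rcases mem_insert.mp hz with rfl | hz
    · exact hx' hzC
    · rw [mem_singleton.mp hz] at hzC
      exact hy' hzC
  · rw [card_compl, Fintype.card_fin, hcard]
    omega

end Pool.Agent.helper41.CL
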