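import Pool.Agent.helper47.CL.AO
import Pool.Agent.helper27.CL.AZ
import Pool.Agent.helper66.CL.SP
import Pool.Agent.helper3.CL.SD
import Pool.Agent.helper16.CL.DC
import Pool.Agent.helper69.CL.WO
import Pool.Agent.helper57.CL.WA
import Pool.Agent.helper41.CL.WC
import Pool.Agent.helper54.CL.EA
import Pool.Agent.helper53.CL.DP
import Pool.Agent.helper96.CL.ST
import Pool.Agent.helper5.CL.YA
import Pool.Agent.helper4.CL.YB
import Pool.Agent.helper43.CL.YX
import Pool.Agent.helper76.CL.YE
import Pool.Agent.helper66.CL.YF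
import Pool.Agent.helper98.CL.YG
import Pool.Agent.helper80.CL.YT
import Pool.Agent.helper58.CL.YU
import Pool.Agent.helper51.CL.YV

/-!
# Project CL, part C closed: the case `n = 2 k`
-/

set_option autoImplicit false

namespace Pool.Agent.helper41.CL

/-- The cover form of the case `n = 2 k`, for all finite sets of pairs. -/
theorem coverTwoK : YG_stmt :=
  have hST : ST_stmt := ST SD
  have hAZ : AZ_stmt := AZ DP hST
  have hAO : AO_stmt := AO DP hST hAZ
  have hEA : EA_stmt := EA hAZ hAO SP WO SD
  have hYA : YA_stmt := YA hAZ SP SD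
  have hYB : YB_stmt := YB hAZ hAO SP WO hEA SD
  YG hAZ SP SD (YX DC) (YE hAZ SP WO hYA hYB) (YF hAZ SP WO hEA SD)

/-- The conjectured bound for all `k ≥ 3` and `n = 2 k`. -/
theorem caseTwoK : YV_stmt := YV coverTwoK WA WC YT YU

end Pool.Agent.helper41.CL
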