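import Pool.Agent.helper47.CL.AllC
import Pool.Agent.helper73.CL.NC
import Pool.Agent.helper64.CL.EB
import Pool.Agent.helper30.CL.EX
import Pool.Agent.helper54.CL.ZB
import Pool.Agent.helper58.CL.ZD
import Pool.Agent.helper59.CL.ZK
import Pool.Agent.helper33.CL.ZL
import Pool.Agent.helper18.CL.ZW
import Pool.Agent.helper69.CL.ZP
import Pool.Agent.helper40.CL.ZI
import Pool.Agent.helper94.CL.ZE
import Pool.Agent.helper90.CL.ZS
import Pool.Agent.helper32.CL.MA
import Pool.Agent.helper2.CL.MB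
import Pool.Agent.helper51.CL.MC
import Pool.Agent.helper95.CL.ZR
import Pool.Agent.helper66.CL.RC
import Pool.Agent.helper27.CL.RB
import Pool.Agent.helper98.CL.RA
import Pool.Agent.helper96.CL.RD
import Pool.Agent.helper96.CL.NA
import Pool.Agent.helper31.CL.NQ
import Pool.Agent.helper4.CL.NS
import Pool.Agent.helper53.CL.NT
import Pool.Agent.helper99.CL.NM2
import Pool.Agent.helper85.CL.TA
import Pool.Agent.helper92.CL.TB
import Pool.Agent.helper75.CL.TC
import Pool.Agent.helper58.CL.ZH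
import Pool.Agent.helper38.CL.BF
import Pool.Agent.helper71.CL.NP

/-!
# Project CL, part D closed: the case `2 k ≤ n ≤ 3 k - 3`
-/

set_option autoImplicit false

namespace Pool.Agent.helper41.CL

/-- The claims `SA`, `SB`, `SC` for all numbers of vertices. -/
theorem rdAll : RD_stmt :=
  have hST : ST_stmt := ST SD
  have hAZ : AZ_stmt := AZ DP hST
  have hAO : AO_stmt := AO DP hST hAZ
  have hMC : MC_stmt := MC MA (MB MA)
  have hZR : ZR_stmt := ZR ZB hAZ hAO
  have hZL : ZL_stmt := ZL ZD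
  have hZW : ZW_stmt := ZW ZD
  have hZI : ZI_stmt := ZI ZH
  have hRC : RC_stmt := RC hMC hZR ZK hZL hZW hZI ZE ZS SD
  have hRB : RB_stmt := RB (BF ZD ZK ZP SD) hZR ZK hZL hZW hZI ZS SD
  have hRA : RA_stmt := RA hZR hZL hZW hZI ZP ZS SD
  RD hRC hRB hRA

/-- The claim `SM` (no common vertex) for all numbers of vertices. -/
theorem smAll : NM2_stmt :=
  have hST : ST_stmt := ST SD
  have hAZ : AZ_stmt := AZ DP hST
  have hAO : AO_stmt := AO DP hST hAZ
  have hEA : EA_stmt := EA hAZ hAO SP WO SD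
  have hNA : NA_stmt := NA ZB hAZ (YB hAZ hAO SP WO hEA SD) (NC SD DC) (EB hAZ hAO SP WO hEA (EX DC)) (YA hAZ SP SD)
  NM2 rdAll hNA (NQ (NP ZK) ZH SD) NS NT (ZW ZD) ZP

/-- The number of the non-edges of the Turán graph. -/
theorem taAll : TA_stmt := TA

/-- The value of the conjectured number. -/
theorem tbAll : TB_stmt := TB

/-- The conjectured bound for `2 k ≤ n ≤ 3 k - 3`, in the form with `q = k - 1`, `n = 2 q + r`, `2 ≤ r ≤ q`. -/
theorem tcAll : TC_stmt := TC smAll TA TB WA WC ZB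

end Pool.Agent.helper41.CL
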