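import Pool.Agent.helper41.CL.Spec

/-!
# MP_d9d598_co, project CL, part C: the case `n = 2 k` (the conjectured number `2^(k-1)`)

Rules as in `Pool/Agent/helper41/CL/Spec.lean`; file `Pool/Agent/<seat>/CL/XX.lean`, `import Pool.Agent.helper47.CL.SpecC`,
`namespace Pool.Agent.helper41.CL`, `open Finset`. In the cover language: `#V = 2 c`, `#E = c + 2`, covers of size `c` (`c = k`).
If a decidability instance does not match, write `@mem_filter _ _ (_) _ _` instead of `mem_filter`.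
-/

set_option autoImplicit false

namespace Pool.Agent.helper41.CL

open Finset

/-- Row YA (short), `theorem YA (h1 : AZ_stmt) (h2 : SP_stmt) (h3 : SD_stmt) : YA_stmt`. If `#E ≤ c`: `AZ` gives `2^c`. If `#E = c + 1`: by `SD` some
`p ∈ V` has `2 ≤ #(inc E p)` (otherwise `2 c + 2 = ∑ ≤ 2 c + 1`). `SP` at `p` with `c - 1`; the covers with `p`: `V.erase p` has `2 c` elements,
`E.filter (p ∉ ·)` at most `c - 1` members, `AZ` with `c - 1`. -/
def YA_stmt : Prop :=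
  ∀ (α : Type) [DecidableEq α] (V : Finset α) (E : Finset (Finset α)) (c : ℕ), Gr V E → 1 ≤ c → #E ≤ c + 1 → #V = 2 * c + 1 →
    2 ^ (c - 1) ≤ #(cov V E c)

/-- Row YB (medium), `theorem YB (h1 : AZ_stmt) (h2 : AO_stmt) (h3 : SP_stmt) (h4 : WO_stmt) (h5 : EA_stmt) (h6 : SD_stmt) : YB_stmt`. If `#E ≤ c`: `AZ` gives
`2^c`. Let `#E = c + 1`; `p` with `2 ≤ #(inc E p)` as in `YA`; `E₁ = E.filter (p ∉ ·)`, `V₁ = V.erase p` (`2 c` elements). `SP` at `p` with `c - 1`.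
DEGREE `≥ 3`: `#E₁ ≤ c - 2`, `AO` with `e = c - 2` on `V₁`: `2 N₁ ≥ 2^(c-2) (4 c - 3 (c - 2)) ≥ 6 * 2^(c-2)`.
DEGREE 2: `#E₁ = c - 1`. If `2 ≤ #(inc E₁ q)` for some `q` (then `c ≥ 3`): `EA` on `V₁`: `8 N₁ ≥ 2^(c-1) (4 c - 3 (c - 1) + 6) = 2^(c-1) (c + 9) ≥ 24 * 2^(c-2)`.
If all degrees in `E₁` are `≤ 1`: `AZ`: `N₁ ≥ 2^(c-1)`; the covers without `p`: `WO` with the two neighbours `a, b` of `p` and size `c - 2`;
`E₀ = E.filter (p, a, b ∉ ·)` has at most `c - 2` members: otherwise `a, b, y` are three different elements of `V₁` of degree 0 in `E₁`, and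
`SD` for `V₁`, `E₁` gives `2 (c - 1) ≤ 2 c - 3`. `AZ` on `V \ {p, a, b}` (`2 c - 2` elements) with `c - 2`: `2^(c-2)`. Total `3 * 2^(c-2)`. -/
def YB_stmt : Prop :=
  ∀ (α : Type) [DecidableEq α] (V : Finset α) (E : Finset (Finset α)) (c : ℕ) (y : α), Gr V E → 2 ≤ c → #E ≤ c + 1 → #V = 2 * c + 1 →
    y ∈ V → (∀ e ∈ E, y ∉ e) → 3 * 2 ^ (c - 2) ≤ #(cov V E c)

/-- Row YX (medium), `theorem YX (h1 : DC_stmt) : YX_stmt`. Let `x ∈ C`. `DC`: `c + 2 + i ≤ ∑_{v ∈ C} deg v ≤ c + t`, where `i` is the number of the members of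
`E` inside `C` and `t` the number of the elements of `C` among `p, a, b, q` (their degree is `≤ 2`, all other degrees are `≤ 1`). The edges
`{p,a}, {p,b}, {a,b}` are covered, so `m ≥ 2` of `p, a, b` are in `C`; if `m = 2` at least 1 of these three edges is inside `C`, if `m = 3` all 3. If
`q ∈ C`: `t = m + 1` and `{q, x}` is a further edge inside `C`; if `q ∉ C`: `t = m`. In all cases `i + 2 > t`. -/
def YX_stmt : Prop :=
  ∀ (α : Type) [DecidableEq α] (V : Finset α) (E : Finset (Finset α)) (c : ℕ) (p a b q x : α), Gr V E → #E = c + 2 →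
    {p, a} ∈ E → {p, b} ∈ E → {a, b} ∈ E → {q, x} ∈ E → p ≠ a → p ≠ b → a ≠ b → q ≠ x → q ∉ ({p, a, b} : Finset α) →
    x ∉ ({p, a, b} : Finset α) → (∀ v, #(inc E v) ≤ 2) → (∀ v, v ∉ ({p, a, b, q} : Finset α) → #(inc E v) ≤ 1) →
    ∀ C ∈ cov V E c, x ∉ C

/-- Row YE (medium), `theorem YE (h1 : AZ_stmt) (h2 : SP_stmt) (h3 : WO_stmt) (h4 : YA_stmt) (h5 : YB_stmt) : YE_stmt`. `SP` at `p` with `c - 1`. The covers with `p`:
`V.erase p` has `2 (c - 1) + 1` elements, `E₁ = E.filter (p ∉ ·)` has `c` members (exactly `{p, a}`, `{p, b}` are removed): `YA` with `c - 1`: `2^(c-2)`; if some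
`y ≠ p` is in no member of `E₁`: `YB` with `c - 1`: `3 * 2^(c-3)`. The covers without `p`: `WO` with `c - 2` (`V \ {p, a, b}` has `2 c - 3` elements): first
part `AZ` with `c - 2`: `2^(c-2)`; second part `YA` with `c - 2` (`2 (c - 2) + 1 = 2 c - 3`): `2^(c-3)`. -/
def YE_stmt : Prop :=
  ∀ (α : Type) [DecidableEq α] (V : Finset α) (E : Finset (Finset α)) (c : ℕ) (p a b : α), Gr V E → 3 ≤ c → #E = c + 2 → #V = 2 * c →
    {p, a} ∈ E → {p, b} ∈ E → p ≠ a → p ≠ b → a ≠ b → (∀ e ∈ E, p ∈ e → e = {p, a} ∨ e = {p, b}) →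
    (#(E.filter fun e => p ∉ e ∧ a ∉ e ∧ b ∉ e) ≤ c - 2 → 2 ^ (c - 1) ≤ #(cov V E c)) ∧
    (#(E.filter fun e => p ∉ e ∧ a ∉ e ∧ b ∉ e) ≤ c - 1 → (∃ y ∈ V, y ≠ p ∧ ∀ e ∈ E, p ∉ e → y ∉ e) → 2 ^ (c - 1) ≤ #(cov V E c))

/-- Row YF (medium), `theorem YF (h1 : AZ_stmt) (h2 : SP_stmt) (h3 : WO_stmt) (h4 : EA_stmt) (h5 : SD_stmt) : YF_stmt`. All components are single vertices, single edges and
paths with three vertices. By `SD` (degrees `≤ 2`, sum `2 c + 4`, `2 c` elements) at least 4 elements have degree 2; no member of `E` contains two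
of them, so `#E ≥ 8`, `c ≥ 6`. Let `p₁, p₂, p₃` be three of them, `a, b` the neighbours of `p₂`. `SP` at `p₁`, then at `p₂`: covers with both: `V \ {p₁, p₂}` has
`2 c - 2` elements, `c - 2` pairs, size `c - 2`, `p₃` has degree 2: `EA`: `8 N ≥ 2^(c-2) (2 (2 c - 2) - 3 (c - 2) + 6) = 2^(c-2) (c + 8)`. Covers with `p₁` without `p₂`: `WO`
(size `c - 3`; `2 c - 4` elements, `c - 2` pairs), then `SP` at `p₃` (`2 c - 5` elements, `c - 4` pairs, size `c - 4`) and `AZ`: `2^(c-4)`. Together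
`32 N ≥ 2^c (c + 8) + 2 * 2^c ≥ 16 * 2^c`. -/
def YF_stmt : Prop :=
  ∀ (α : Type) [DecidableEq α] (V : Finset α) (E : Finset (Finset α)) (c : ℕ), Gr V E → 3 ≤ c → #E = c + 2 → #V = 2 * c →
    (∀ v, #(inc E v) ≤ 2) → (∀ e ∈ E, ∀ p ∈ e, ∀ x ∈ e, p ≠ x → #(inc E p) = 2 → #(inc E x) = 1) → 2 ^ (c - 1) ≤ #(cov V E c)

/-- Row YG (medium), `theorem YG (h1 : AZ_stmt) (h2 : SP_stmt) (h3 : SD_stmt) (h4 : YX_stmt) (h5 : YE_stmt) (h6 : YF_stmt) : YG_stmt`. CASE 1, `3 ≤ #(inc E p)`: `SP` at `p` with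
`c - 1`, `AZ` on `V.erase p` (`2 c - 1` elements, at most `c - 1` pairs) with `c - 1`: `2^(c-1)`. CASE 2, all degrees `≤ 2`. For `p` of degree 2 with the
neighbours `a, b` let `j` be the number of the members of `E` without `p` that contain `a` or `b`; `#(E.filter (p, a, b ∉ ·)) = c - j`. If `j ≥ 2`: first part
of `YE`. If `j = 1`: second part of `YE`, if some `y ≠ p` is in no member of `E` without `p`. Otherwise (`j = 1`) the only member `e` of `E` without `p` that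
meets `{a, b}` contains `a` and `b` (both must be in such a member), so `{a, b} ∈ E` and `p, a, b` have degree 2; no element of `V` has degree 0,
so by `SD` exactly 4 elements have degree 2; let `q ∉ {p, a, b}` be the fourth, `{q, x} ∈ E`; `x ∉ {p, a, b}` because the members of `E` that
contain `p, a` or `b` are `{p,a}, {p,b}, {a,b}`; `YX` contradicts the hypothesis for `x`. If `j = 0` for every `p` of degree 2: `YF`. -/
def YG_stmt : Prop :=
  ∀ (α : Type) [DecidableEq α] (V : Finset α) (E : Finset (Finset α)) (c : ℕ), Gr V E → 3 ≤ c → #E = c + 2 → #V = 2 * c →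
    (∀ x ∈ V, ∃ C ∈ cov V E c, x ∈ C) → 2 ^ (c - 1) ≤ #(cov V E c)

/-- Row YT (short). From `SimpleGraph.card_edgeFinset_turanGraph`: for `n = 2 r + 2` one has `n % r = 2` if `r ≥ 3`, and `6 % 2 = 0` for `r = 2`. -/
def YT_stmt : Prop :=
  ∀ r : ℕ, 2 ≤ r → #(SimpleGraph.turanGraph (2 * r + 2) r).edgeFinset + (r + 4) = (2 * r + 2).choose 2

/-- Row YU (short). With `r = k - 1`, `n = 2 r + 2`: the parts 1 and 2 have 3 elements, the others (`3 ≤ i ≤ r`) have 2. -/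
def YU_stmt : Prop := ∀ k : ℕ, 3 ≤ k → target (2 * k) k = 2 ^ (k - 1)

/-- Row YV (short), `theorem YV (h1 : YG_stmt) (h2 : WA_stmt) (h3 : WC_stmt) (h4 : YT_stmt) (h5 : YU_stmt) : YV_stmt`. `YT` with `r = k - 1` and `WA`: `#(NE G) = k + 2`. `Gr univ (NE G)` is
clear. `WC` with `n = 2 k` (`n - k = k`) and `YG` with `c = k`. -/
def YV_stmt : Prop :=
  ∀ (k : ℕ) (G : SimpleGraph (Fin (2 * k))) [DecidableRel G.Adj], 3 ≤ k →
    #G.edgeFinset = #(SimpleGraph.turanGraph (2 * k) (k - 1)).edgeFinset + 1 → (∀ v, ∃ s, G.IsNClique k s ∧ v ∉ s) →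
    target (2 * k) k ≤ #(G.cliqueFinset k)

end Pool.Agent.helper41.CL
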