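import Pool.Agent.helper41.CL.Spec
import Pool.Agent.helper47.CL.SpecC

/-!
# MP_d9d598_co, project CL, part D: all `n ≤ 3 k - 3` (all parts of `T_(k-1)(n)` have at most 3 elements)

`V` vertices, `E` pairs (the non-edges of the graph), `ind V E k` the independent `k`-sets. Always `#V = 2 q + r`, independent sets of size `q + 1`,
`q = k - 1`; `T_q(V)` has `q + 2 r` non-edges for `r ≤ q`. We write `W = 3^r 2^(q-r)`. Claims: `#E ≤ q + 2r - 1, - 2, - 3` give at least `W/3`, `2W/3`, `8W/9`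
independent sets of size `q + 1` (`SA`, `SB`, `SC`), and `#E ≤ q + 2r - 1` and no common vertex give `4W/9` (`SM`).
RULES as in `Pool/Agent/helper41/CL/Spec.lean`; file `Pool/Agent/<seat>/CL/XX.lean`, `import Pool.Agent.helper47.CL.SpecD`, `namespace Pool.Agent.helper41.CL`,
`open Finset`. If a decidability instance does not match, write `@mem_filter _ _ (_) _ _` instead of `mem_filter`.
-/

set_option autoImplicit false

namespace Pool.Agent.helper41.CL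

open Finset

variable {α : Type} [DecidableEq α]

/-- The independent `k`-sets. -/
def ind (V : Finset α) (E : Finset (Finset α)) (k : ℕ) : Finset (Finset α) :=
  (V.powersetCard k).filter fun I => ∀ e ∈ E, ¬ e ⊆ I

/-- The members of `E` that avoid `S`. -/
def av (E : Finset (Finset α)) (S : Finset α) : Finset (Finset α) := E.filter fun e => Disjoint e S

/-- `{x, y}` is a component with one edge. -/
def Kt (E : Finset (Finset α)) (x y : α) : Prop := x ≠ y ∧ {x, y} ∈ E ∧ ∀ e ∈ E, x ∈ e ∨ y ∈ e → e = {x, y}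

/-- `x` is a leaf whose neighbour `a` has degree at least two. -/
def Lf (E : Finset (Finset α)) (x a : α) : Prop := x ≠ a ∧ {x, a} ∈ E ∧ (∀ e ∈ E, x ∈ e → e = {x, a}) ∧ 2 ≤ #(inc E a)

/-- `p` has degree two, with the neighbours `a`, `b`. -/
def Tw (E : Finset (Finset α)) (p a b : α) : Prop :=
  a ≠ b ∧ p ≠ a ∧ p ≠ b ∧ {p, a} ∈ E ∧ {p, b} ∈ E ∧ ∀ e ∈ E, p ∈ e → e = {p, a} ∨ e = {p, b}

/-- All vertices have degree at least three or lie in a component with one edge, and some vertex has degree at least three. -/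
def Ft (V : Finset α) (E : Finset (Finset α)) : Prop := (∃ p, 3 ≤ #(inc E p)) ∧ ∀ x ∈ V, 3 ≤ #(inc E x) ∨ ∃ y, Kt E x y

/-- There is an isolated vertex, or every vertex is missed by an independent `k`-set. -/
def HH (V : Finset α) (E : Finset (Finset α)) (k : ℕ) : Prop := (∃ y ∈ V, ∀ e ∈ E, y ∉ e) ∨ ∀ x ∈ V, ∃ I ∈ ind V E k, x ∉ I

/-- The vertices by which `J` can be extended. -/
def ext (V : Finset α) (E : Finset (Finset α)) (J : Finset α) : Finset α := V.filter fun v => v ∉ J ∧ ∀ e ∈ E, ¬ e ⊆ insert v J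

/-- Row ZB (short). `C ↦ V \ C`. -/
def ZB_stmt : Prop :=
  ∀ (α : Type) [DecidableEq α] (V : Finset α) (E : Finset (Finset α)) (c : ℕ), Gr V E → c ≤ #V → #(cov V E c) = #(ind V E (#V - c))

/-- Row ZD (short). Sets without `p`; and `insert p J` for `J ∈ ind (V \ S) (av E S) k` (a member of `E` inside `insert p J` that contains `p` is inside `S`, so it has
only one element; one that does not contain `p` is inside `J`, so it avoids `S`). -/
def ZD_stmt : Prop :=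
  ∀ (α : Type) [DecidableEq α] (V : Finset α) (E : Finset (Finset α)) (p : α) (S : Finset α) (k : ℕ), Gr V E → p ∈ S → S ⊆ V → (∀ e ∈ E, p ∈ e → e ⊆ S) →
    #(ind (V.erase p) (av E {p}) (k + 1)) + #(ind (V \ S) (av E S) k) ≤ #(ind V E (k + 1))

/-- Row ZK (short). `J` (size `k + 1`), `insert x J`, `insert y J` (`J` of size `k`). -/
def ZK_stmt : Prop :=
  ∀ (α : Type) [DecidableEq α] (V : Finset α) (E : Finset (Finset α)) (x y : α), Gr V E → Kt E x y →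
    Gr (V \ {x, y}) (av E {x, y}) ∧ #(V \ {x, y}) + 2 = #V ∧ #(av E {x, y}) + 1 = #E ∧
    ∀ k : ℕ, 2 * #(ind (V \ {x, y}) (av E {x, y}) k) + #(ind (V \ {x, y}) (av E {x, y}) (k + 1)) ≤ #(ind V E (k + 1))

/-- Row ZL (short), `theorem ZL (h1 : ZD_stmt) : ZL_stmt`. `ZD` with `p = x`, `S = {x, a}`. -/
def ZL_stmt : Prop :=
  ∀ (α : Type) [DecidableEq α] (V : Finset α) (E : Finset (Finset α)) (x a : α), Gr V E → Lf E x a →
    Gr (V \ {x, a}) (av E {x, a}) ∧ Gr (V.erase x) (av E {x}) ∧ #(V \ {x, a}) + 2 = #V ∧ #(V.erase x) + 1 = #V ∧ #(av E {x, a}) + 2 ≤ #E ∧ #(av E {x}) + 1 = #E ∧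
    ∀ k : ℕ, #(ind (V \ {x, a}) (av E {x, a}) k) + #(ind (V.erase x) (av E {x}) (k + 1)) ≤ #(ind V E (k + 1))

/-- Row ZW (short, medium), `theorem ZW (h1 : ZD_stmt) : ZW_stmt`. `ZD` with `S = {p, a, b}`. `{p, a}`, `{p, b}` and a second member with `a` (or `b`) meet `S`; the second
members with `a` and with `b` are different if `{a, b} ∉ E`. -/
def ZW_stmt : Prop :=
  ∀ (α : Type) [DecidableEq α] (V : Finset α) (E : Finset (Finset α)) (p a b : α), Gr V E → Tw E p a b →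
    Gr (V \ {p, a, b}) (av E {p, a, b}) ∧ Gr (V.erase p) (av E {p}) ∧ #(V \ {p, a, b}) + 3 = #V ∧ #(V.erase p) + 1 = #V ∧ #(av E {p}) + 2 = #E ∧
    (2 ≤ #(inc E a) ∨ 2 ≤ #(inc E b) → #(av E {p, a, b}) + 3 ≤ #E) ∧
    (2 ≤ #(inc E a) → 2 ≤ #(inc E b) → {a, b} ∉ E → #(av E {p, a, b}) + 4 ≤ #E) ∧
    ∀ k : ℕ, #(ind (V \ {p, a, b}) (av E {p, a, b}) k) + #(ind (V.erase p) (av E {p}) (k + 1)) ≤ #(ind V E (k + 1))

/-- Row ZP (short). -/
def ZP_stmt : Prop :=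
  ∀ (α : Type) [DecidableEq α] (V : Finset α) (E : Finset (Finset α)) (p : α), Gr V E → p ∈ V →
    Gr (V.erase p) (av E {p}) ∧ #(V.erase p) + 1 = #V ∧ #(av E {p}) + #(inc E p) = #E ∧
    ∀ k : ℕ, #(ind (V.erase p) (av E {p}) k) ≤ #(ind V E k)

/-- Row ZH (short, medium). Injection `I ↦ if a ∈ I ∧ c ∈ I then insert y (I.erase a) else I` (`y ∉ I` in the first case because `{y, c}` is not inside `I`); the images of the first
kind contain `y` and `c`, those of the second kind do not contain both. -/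
def ZH_stmt : Prop :=
  ∀ (α : Type) [DecidableEq α] (V : Finset α) (E : Finset (Finset α)) (a c y : α), Gr V E → {a, c} ∈ E → a ≠ c → y ∈ V → (∀ e ∈ E, y ∉ e) →
    Gr V (insert {y, c} (E.erase {a, c})) ∧ #(insert {y, c} (E.erase {a, c})) = #E ∧
    ∀ k : ℕ, #(ind V (insert {y, c} (E.erase {a, c})) k) ≤ #(ind V E k)

/-- Row ZI (short), `theorem ZI (h1 : ZH_stmt) : ZI_stmt`. Let `{a, c} ∈ E`. `c` has degree `≥ 2` (otherwise `Lf E c a`). `E' = insert {y, c} (E.erase {a, c})`, `Lf E' y c`. -/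
def ZI_stmt : Prop :=
  ∀ (α : Type) [DecidableEq α] (V : Finset α) (E : Finset (Finset α)) (a y : α), Gr V E → y ∈ V → (∀ e ∈ E, y ∉ e) → 2 ≤ #(inc E a) → (¬ ∃ x b, Lf E x b) →
    ∃ E' : Finset (Finset α), Gr V E' ∧ #E' = #E ∧ (∃ x b, Lf E' x b) ∧ ∀ k : ℕ, #(ind V E' k) ≤ #(ind V E k)

/-- Row ZE (short). No pairs at all: two elements `x, y` of `V`, `V' = V \ {x, y}`, the sets `insert x J`, `insert y J`. -/
def ZE_stmt : Prop :=
  ∀ (α : Type) [DecidableEq α] (V : Finset α), 2 ≤ #V → ∃ V' : Finset α, #V' + 2 = #V ∧ ∀ k : ℕ, 2 * #(ind V' ∅ k) ≤ #(ind V ∅ (k + 1))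

/-- Row ZS (short, medium). Suppose that the first three and the fourth fail. Then some vertex has degree `≥ 2`, so there is no isolated vertex. `x ∈ V` of degree 1 with the neighbour `a`:
`a` has degree 1 (otherwise `Lf`), so `Kt E x a`. `x` of degree 2: `Tw E x a b`; if `a` has degree 1, then `Lf E a x`; so both neighbours have degree `≥ 2`, the third case. -/
def ZS_stmt : Prop :=
  ∀ (α : Type) [DecidableEq α] (V : Finset α) (E : Finset (Finset α)), Gr V E →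
    (∃ x a, Lf E x a) ∨ ((∃ y ∈ V, ∀ e ∈ E, y ∉ e) ∧ ∃ a, 2 ≤ #(inc E a)) ∨ (∃ p a b, Tw E p a b ∧ 2 ≤ #(inc E a) ∧ 2 ≤ #(inc E b)) ∨
    (∀ x, #(inc E x) ≤ 1) ∨ Ft V E

/-- Row MA (short). Double counting of the pairs `J ⊆ I`, `#I = s + 1`. -/
def MA_stmt : Prop :=
  ∀ (α : Type) [DecidableEq α] (V : Finset α) (E : Finset (Finset α)) (s : ℕ), ∑ J ∈ ind V E s, #(ext V E J) = (s + 1) * #(ind V E (s + 1))

/-- Row MB (medium), `theorem MB (h1 : MA_stmt) : MB_stmt` (Moon and Moser). `∑ #(ext J)²` counts the triples `(J, u, v)`, `u, v ∈ ext J`. (i) `u = v`: `(s+1) i_(s+1)` by `MA`. (ii) `u ≠ v` and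
`J ∪ {u, v}` independent: `(s+2) (s+1) i_(s+2)`. (iii) `u ≠ v` and `J ∪ {u, v}` not independent: map the triple to `(S, v)`, `S = insert u J`; it is injective: if
`J₁, u₁` and `J₂, u₂` give the same `(S, v)` and `u₁ ≠ u₂`, then a member of `E` inside `insert v S` contains `v` (since `S` is independent), `u₁` (since `S \ {u₁} ∪ {v}` is
independent) and `u₂`, but it has only two elements (here `Gr V E` is used). The pairs `(S, v)`, `v ∈ V \ S`, `v ∉ ext S` are `(#V - s - 1) i_(s+1) - (s+2) i_(s+2)` by `MA` for `s + 1`.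
Sum: `#V i_(s+1) + s (s+2) i_(s+2)`. -/
def MB_stmt : Prop :=
  ∀ (α : Type) [DecidableEq α] (V : Finset α) (E : Finset (Finset α)) (s : ℕ), Gr V E →
    ∑ J ∈ ind V E s, #(ext V E J) ^ 2 ≤ #V * #(ind V E (s + 1)) + s * (s + 2) * #(ind V E (s + 2))

/-- Row MC (medium), `theorem MC (h1 : MA_stmt) (h2 : MB_stmt) : MC_stmt`. Write `i_s = #(ind V E s)`, `N = #V = 3 Q`. By `MA`, `MB` and Cauchy-Schwarz (`sq_sum_le_card_mul_sum_sq`)
`((s+1) i_(s+1))² ≤ i_s (N i_(s+1) + s (s+2) i_(s+2))`. Claim: `(N - 3 s) i_s ≤ (s+1) i_(s+1)` and `i_s > 0` for `s < Q`: `s = 0`: `i_0 = 1`, `i_1 = N`; `s = 1`: `i_2 ≥ N (N-1)/2 - #E`; step from `s ≥ 1` to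
`s + 1`: multiply by `N - 3 s > 0`, use the claim for `i_s`, divide by `(s+1) i_(s+1)`: `(s+1)(N - 3s) i_(s+1) ≤ N i_(s+1) + s (s+2) i_(s+2)`, that is `s (N - 3(s+1)) i_(s+1) ≤ s (s+2) i_(s+2)`. So
`3^s choose Q s ≤ i_s` by induction on `s ≤ Q`. -/
def MC_stmt : Prop :=
  ∀ (α : Type) [DecidableEq α] (V : Finset α) (E : Finset (Finset α)) (Q : ℕ), Gr V E → #V = 3 * Q → #E ≤ 3 * Q → 3 ^ Q ≤ #(ind V E Q)

/-- Row ZR (short, medium), `theorem ZR (h1 : ZB_stmt) (h2 : AZ_stmt) (h3 : AO_stmt) : ZR_stmt`. `ZB` with `c = q - 1`. `AO` with `e = q - 2`: `2^(q-2) (q + 6) ≤ 2 N`; `AZ` with `e = q - 1`. -/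
def ZR_stmt : Prop :=
  ∀ (α : Type) [DecidableEq α] (V : Finset α) (E : Finset (Finset α)) (q : ℕ), Gr V E → #V = 2 * q →
    (#E + 3 ≤ q → 8 * 2 ^ q ≤ 9 * #(ind V E (q + 1))) ∧ (#E + 2 ≤ q → 2 * 2 ^ q ≤ 3 * #(ind V E (q + 1))) ∧ (#E + 1 ≤ q → 2 ^ q ≤ 3 * #(ind V E (q + 1)))

def SC (N : ℕ) : Prop :=
  ∀ (α : Type) [DecidableEq α] (V : Finset α) (E : Finset (Finset α)) (q r : ℕ), Gr V E → #V = 2 * q + r → #V ≤ N → r ≤ q + 3 → #E + 3 ≤ q + 2 * r →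
    8 * 3 ^ r * 2 ^ q ≤ 9 * 2 ^ r * #(ind V E (q + 1))

def SB (N : ℕ) : Prop :=
  ∀ (α : Type) [DecidableEq α] (V : Finset α) (E : Finset (Finset α)) (q r : ℕ), Gr V E → #V = 2 * q + r → #V ≤ N → r ≤ q + 1 → #E + 2 ≤ q + 2 * r →
    2 * 3 ^ r * 2 ^ q ≤ 3 * 2 ^ r * #(ind V E (q + 1))

def SA (N : ℕ) : Prop :=
  ∀ (α : Type) [DecidableEq α] (V : Finset α) (E : Finset (Finset α)) (q r : ℕ), Gr V E → #V = 2 * q + r → #V ≤ N → r ≤ q → #E + 1 ≤ q + 2 * r →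
    3 ^ r * 2 ^ q ≤ 3 * 2 ^ r * #(ind V E (q + 1))

/-- Row RC (medium), `theorem RC (h1 : MC_stmt) (h2 : ZR_stmt) (h3 : ZK_stmt) (h4 : ZL_stmt) (h5 : ZW_stmt) (h6 : ZI_stmt) (h7 : ZE_stmt) (h8 : ZS_stmt) (h9 : SD_stmt) : RC_stmt`.
`r = 0`: `ZR`. `r = q + 3`: `MC` with `Q = q + 1`. `q = 0`, `r ≤ 2`: `r = 2`, `#(ind V E 1) = 2` (no member of `E` is inside a one-element set). Now `1 ≤ q`, `1 ≤ r ≤ q + 2`. Use `ZS`.
(L) `Lf E x a`: `ZL`, `SC` for `(q-1, r)` and `SB` for `(q, r-1)`: `9 2^r (N₁ + N₂) ≥ 4 3^r 2^q + 4 3^r 2^q`. (I) `ZI` gives `E'` with a leaf; (L) for `E'`. (D) `ZW`, `SC` for `(q, r-1)` and `(q-1, r-1)`.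
(K) some `Kt E x y`: `ZK`, `SC` for `(q-1, r)`. If all degrees are `≤ 1`: `E ≠ ∅` gives `Kt`; `E = ∅`: `ZE` and `SC` for `(q-1, r)` if `4 ≤ q + 2r`; `q = r = 1`: `#(ind V ∅ 2) = 3`. If `Ft V E`: some `Kt`, or
all degrees are `≥ 3` and `SD` gives `3 (2q + r) ≤ 2 (q + 2r - 3)`, a contradiction. -/
def RC_stmt : Prop := ∀ N : ℕ, SB N → SC N → SC (N + 1)

/-- Row BF (medium), `theorem BF (h1 : ZD_stmt) (h2 : ZK_stmt) (h3 : ZP_stmt) (h4 : SD_stmt) : BF_stmt`. Not all degrees are `≥ 3` (`SD`: `3 (3q+1) ≤ 6 q`), so some `Kt E x y`. CASE `4 ≤ #(inc E p)`: `#V ≥ 7`, `q ≥ 2`. `ZP` at `p`,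
then `ZK` for `x, y` (still `Kt`): `V₂` has `3 q - 2` elements, `E₂` at most `3 q - 5` members; `SC` for `(q-1, q)`: `4 3^q ≤ 9 i_q`; `SA` for `(q, q-2)`: `4 3^(q-2) ≤ 3 i_(q+1)`; `2 i_q + i_(q+1) ≥ (28/27) 3^q`.
CASE all degrees `≤ 3`, `#(inc E p) = 3`, neighbours `a, b, c`: they have degree 3 (a neighbour of `p` is in no `Kt`). `ZD` with `S = {p, a, b, c}`: `V \ S` has `3 (q-1)` elements; at least 6 members of `E` meet `S`
(3 at `p`, and each of `a, b, c` is in two others, each counted at most twice); `SC` for `(q, q)` (`#(av E {p}) = 3q - 3`) and `(q-1, q-1)`: `(8/9)(3^q + 3^(q-1)) ≥ 3^q`. -/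
def BF_stmt : Prop :=
  ∀ N : ℕ, SA N → SC N → ∀ (α : Type) [DecidableEq α] (V : Finset α) (E : Finset (Finset α)) (q : ℕ), Gr V E → #V = 3 * q + 1 → #V ≤ N + 1 → #E = 3 * q → 1 ≤ q → Ft V E →
    3 ^ q ≤ #(ind V E (q + 1))

/-- Row RB (medium), `theorem RB (h1 : BF_stmt) (h2 : ZR_stmt) (h3 : ZK_stmt) (h4 : ZL_stmt) (h5 : ZW_stmt) (h6 : ZI_stmt) (h8 : ZS_stmt) (h9 : SD_stmt) : RB_stmt`. If `#E + 3 ≤ q + 2r`: `SC (N+1)`. So
`#E + 2 = q + 2r`. `r = 0`: `ZR`. `q = 0`, `r = 1`: `E = ∅`, one set. `1 ≤ q`, `1 ≤ r`: `ZS`. (L) `ZL`, `SC` for `(q-1, r)`, `SA` for `(q, r-1)`: `3 2^r (N₁ + N₂) ≥ (4/3 + 2/3) 3^r 2^q`. (I) `ZI`, then (L). (D) `ZW`, `SB` for `(q, r-1)`,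
`(q-1, r-1)`. (K) for `r ≤ q`: `ZK`, `SB` for `(q-1, r)`. All degrees `≤ 1`: `2 #E ≤ #V` (`SD`) gives `r = 1 ≤ q`, `E ≠ ∅`, (K). `Ft V E`: `r ≤ q`: some `Kt` (otherwise `SD` gives a contradiction), (K);
`r = q + 1`: `BF`. -/
def RB_stmt : Prop := ∀ N : ℕ, SA N → SB N → SC N → SC (N + 1) → SB (N + 1)

/-- Row RA (medium), `theorem RA (h2 : ZR_stmt) (h4 : ZL_stmt) (h5 : ZW_stmt) (h6 : ZI_stmt) (h7 : ZP_stmt) (h8 : ZS_stmt) (h9 : SD_stmt) : RA_stmt`. If `#E + 2 ≤ q + 2r`: `SB (N+1)`. So `#E + 1 = q + 2r`. `r = 0`: `ZR`. `1 ≤ r ≤ q`: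
`3 ≤ #(inc E p)`: `ZP`, `SB` for `(q, r-1)`. (L) `ZL`, `SB` for `(q-1, r)` alone. (I) `ZI`, (L). (D) `ZW`, `SA` for `(q, r-1)`, `(q-1, r-1)`. All degrees `≤ 1`: `2 #E ≤ #V` is impossible. -/
def RA_stmt : Prop := ∀ N : ℕ, SA N → SB N → SB (N + 1) → SA (N + 1)

/-- Row RD (short), `theorem RD (h1 : RC_stmt) (h2 : RB_stmt) (h3 : RA_stmt) : RD_stmt`. Induction on `N` (`N = 0`: `q = r = 0`, the hypotheses on `#E` are false). -/
def RD_stmt : Prop := ∀ N : ℕ, SA N ∧ SB N ∧ SC N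

/-- Row NA (medium), `theorem NA (h1 : ZB_stmt) (h2 : AZ_stmt) (h3 : YB_stmt) (h4 : NC_stmt) (h5 : EB_stmt) (h6 : YA_stmt) : NA_stmt`. The case `r = 1` of `SM`; `ZB` with `c = q`. If `#E ≤ q`: `AZ`. `#E = q + 1`: an isolated vertex: `q ≥ 2`
(`q = 1`: only one pair avoids `y`), `YB` with `c = q`: `3 2^(q-2)`. Otherwise (sets that miss `x` are complements of covers that contain `x`) `NC` gives `D`; `q = 1` is impossible (`D = ∅`), and for
`q ≥ 2` `EB`: `2^(q+1) (q + 11) ≤ 32 N`. -/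
def NA_stmt : Prop :=
  ∀ (α : Type) [DecidableEq α] (V : Finset α) (E : Finset (Finset α)) (q : ℕ), Gr V E → 1 ≤ q → #V = 2 * q + 1 → #E ≤ q + 1 → HH V E (q + 1) →
    2 * 2 ^ q ≤ 3 * #(ind V E (q + 1))

/-- Row NP (medium), `theorem NP (h1 : ZK_stmt) : NP_stmt`. Components are single vertices, single edges and paths with three vertices; `A` = the set of the elements of degree 2. Induction on `#V`, one component
is removed: an isolated vertex `y` (`insert y J`), `Kt E x y` (`ZK`), `Tw E p a b` with `Kt`-free ends: `V \ {p, a, b}`: sets `insert p J`, `insert a J`, `insert b J`, `insert a (insert b J')`, so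
`i_(k+2) ≥ 3 i'_(k+1) + i'_k`, and Pascal. (`#E ≤ #V`; `2 #A ≤ #E`.) -/
def NP_stmt : Prop :=
  ∀ (α : Type) [DecidableEq α] (V A : Finset α) (E : Finset (Finset α)) (ρ : ℕ), Gr V E → (∀ x, #(inc E x) ≤ 2) → (∀ p a b, Tw E p a b → #(inc E a) = 1 ∧ #(inc E b) = 1) →
    (∀ x, x ∈ A ↔ #(inc E x) = 2) → ρ ≤ #A →
    #E ≤ #V ∧ 2 * #A ≤ #E ∧ (#A).choose ρ * 3 ^ (#A - ρ) * 2 ^ (#E - 2 * #A) ≤ #(ind V E (#V - #E + ρ))

/-- Row NQ (medium), `theorem NQ (h1 : NP_stmt) (h2 : ZH_stmt) (h3 : SD_stmt) : NQ_stmt`. Induction on the number of isolated vertices. If there is one, `y`: some `p` has degree 2 (`SD`), `Tw E p a b`; `ZH` with `a := p`, `c := a`, `y`: the new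
set has one isolated vertex less, satisfies the same hypotheses. If there is none: by `SD` (degrees 1 and 2) `#A = 3 r - 2`, `#V - #E = q - r + 1`, `NP` with `ρ = r`: `choose (3r-2) r * 3^(2r-2) * 2^(q-4r+3)`, and
`8^r ≤ 2 * 3^r * choose (3r-2) r` by induction on `r ≥ 2`. -/
def NQ_stmt : Prop :=
  ∀ (α : Type) [DecidableEq α] (V : Finset α) (E : Finset (Finset α)) (q r : ℕ), Gr V E → #V = 2 * q + r → #E + 1 = q + 2 * r → 2 ≤ r → (∀ x, #(inc E x) ≤ 2) →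
    (∀ p a b, Tw E p a b → #(inc E a) = 1 ∧ #(inc E b) = 1) → 4 * 3 ^ r * 2 ^ q ≤ 9 * 2 ^ r * #(ind V E (q + 1))

/-- Row NS (medium). Suppose that all degrees are `≤ 2` and the last alternative fails: `Tw E p a b` with, say, `#(inc E b) = 2`. If `#(inc E a) = 2`: second or third case. If `#(inc E a) = 1`: `b` has a second neighbour `y ≠ p`
(`Tw E b p y`); `#(inc E y) = 1` gives the fourth case, `#(inc E y) = 2` gives the second case for `b, p, y` (`{p, y} ∉ E` since `y ≠ a, b`). -/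
def NS_stmt : Prop :=
  ∀ (α : Type) [DecidableEq α] (V : Finset α) (E : Finset (Finset α)), Gr V E →
    (∃ p, 3 ≤ #(inc E p)) ∨ (∃ p a b, Tw E p a b ∧ 2 ≤ #(inc E a) ∧ 2 ≤ #(inc E b) ∧ {a, b} ∉ E) ∨ ((∀ x, #(inc E x) ≤ 2) ∧ ∃ p a b, Tw E p a b ∧ {a, b} ∈ E) ∨
    (∃ p a b y, Tw E p a b ∧ Tw E b p y ∧ #(inc E a) = 1 ∧ #(inc E y) = 1) ∨
    ((∀ x, #(inc E x) ≤ 2) ∧ ∀ p a b, Tw E p a b → #(inc E a) = 1 ∧ #(inc E b) = 1)

/-- Row NT (medium). A triangle component: the members of `E` that meet `{p, a, b}` are `{p,a}, {p,b}, {a,b}`. Sets `insert p J`, `insert a J`, `insert b J`. `HH`: an isolated vertex stays isolated; an independent `(k+1)`-set contains at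
most one of `p, a, b`, so a subset with `k` elements of the rest. -/
def NT_stmt : Prop :=
  ∀ (α : Type) [DecidableEq α] (V : Finset α) (E : Finset (Finset α)) (p a b : α), Gr V E → (∀ x, #(inc E x) ≤ 2) → Tw E p a b → {a, b} ∈ E →
    Gr (V \ {p, a, b}) (av E {p, a, b}) ∧ #(V \ {p, a, b}) + 3 = #V ∧ #(av E {p, a, b}) + 3 = #E ∧
    (∀ k : ℕ, 3 * #(ind (V \ {p, a, b}) (av E {p, a, b}) k) ≤ #(ind V E (k + 1))) ∧ ∀ k : ℕ, HH V E (k + 1) → HH (V \ {p, a, b}) (av E {p, a, b}) k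

def SM (N : ℕ) : Prop :=
  ∀ (α : Type) [DecidableEq α] (V : Finset α) (E : Finset (Finset α)) (q r : ℕ), Gr V E → #V = 2 * q + r → #V ≤ N → 1 ≤ r → r ≤ q → #E + 1 ≤ q + 2 * r → HH V E (q + 1) →
    4 * 3 ^ r * 2 ^ q ≤ 9 * 2 ^ r * #(ind V E (q + 1))

/-- Row NM2 (medium), `theorem NM2 (h1 : RD_stmt) (h2 : NA_stmt) (h3 : NQ_stmt) (h4 : NS_stmt) (h5 : NT_stmt) (h6 : ZW_stmt) (h7 : ZP_stmt) : NM2_stmt`. Induction on `N`. `#E + 2 ≤ q + 2r`: `SB`. `r = 1`: `NA`. `r ≥ 2`, `#E + 1 = q + 2r`: `NS`.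
(1) `ZP`, `SB` for `(q, r-1)`. (2) `ZW` (4 members removed), `SA` for `(q, r-1)`, `SB` for `(q-1, r-1)`. (3) `NT`, `SM` for `(q-1, r-1)`. (4) `ZW` for `p, a, b`, `SM` for `(q, r-1)` (`a` is isolated in `av E {p}`) and for `(q-1, r-1)` (`y` is
isolated in `av E {p, a, b}`, `y ∉ {p, a, b}`). (5) `NQ`. -/
def NM2_stmt : Prop := ∀ N : ℕ, SM N

/-- Row TA (short). `r ≤ q`: `SimpleGraph.card_edgeFinset_turanGraph`, `(2 q + r) % q = r` for `r < q`, `3 q % q = 0`. (`q = 1`: `T_1` has no edge, `r ≤ 1`.) -/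
def TA_stmt : Prop :=
  ∀ q r : ℕ, 1 ≤ q → r ≤ q → #(SimpleGraph.turanGraph (2 * q + r) q).edgeFinset + (q + 2 * r) = (2 * q + r).choose 2

/-- Row TB (short). The parts `1, ..., r` have 3 elements, the others 2 (`partSize`, `Icc 3 q` split at `r`). -/
def TB_stmt : Prop := ∀ q r : ℕ, 2 ≤ r → r ≤ q → target (2 * q + r) (q + 1) = 4 * 3 ^ (r - 2) * 2 ^ (q - r)

/-- Row TC (short, medium), `theorem TC (h1 : NM2_stmt) (h2 : TA_stmt) (h3 : TB_stmt) (h4 : WA_stmt) (h5 : WC_stmt) (h6 : ZB_stmt) : TC_stmt`. `#(NE G) = q + 2 r - 1`, `Gr univ (NE G)` clear; `WC`, `ZB` with `c = n - (q + 1)`; `HH` second alternative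
(a clique that misses `v` is an independent set of `NE G` that misses `v`). `SM` gives `4 3^r 2^q ≤ 9 2^r N`. -/
def TC_stmt : Prop :=
  ∀ (q r : ℕ) (G : SimpleGraph (Fin (2 * q + r))) [DecidableRel G.Adj], 2 ≤ r → r ≤ q →
    #G.edgeFinset = #(SimpleGraph.turanGraph (2 * q + r) q).edgeFinset + 1 → (∀ v, ∃ s, G.IsNClique (q + 1) s ∧ v ∉ s) →
    target (2 * q + r) (q + 1) ≤ #(G.cliqueFinset (q + 1))

end Pool.Agent.helper41.CL
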